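import Pool.Agent.W81.R1N.App2N

/-!
An asymptotic formula for the number of representations of an odd integer as a prime and
`x (x + 1)`, for almost all odd integers of every interval `(N, N + H]` with
`√N (log N)^B ≤ H ≤ N`.
-/

set_option autoImplicit false

namespace Pool.Agent.Results.MP_3f6540_nt.ShortIntervalAsymptotic

open Finset Filter

/-- the number of positive integers `x` with `n - x(x+1)` prime -/
noncomputable def reps (n : ℕ) : ℕ :=
  ((Icc 1 n).filter (fun x : ℕ => x * (x + 1) ≤ n ∧ (n - x * (x + 1)).Prime)).card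

/-- the sum of `1 / log (n - x(x+1))` over the `x ≥ 1` with `x(x+1) + 2 ≤ n` -/
noncomputable def mainSum (n : ℕ) : ℝ :=
  ∑ x ∈ (Icc 1 n).filter (fun x : ℕ => x * (x + 1) + 2 ≤ n), 1 / Real.log ((n - x * (x + 1) : ℕ) : ℝ)

/-- `∏ (1 - ((4n+1)/p)/(p-1))` over the odd primes `p < X` -/
noncomputable def partialProd (n X : ℕ) : ℝ :=
  ∏ p ∈ (range X).filter (fun p : ℕ => Nat.Prime p ∧ 2 < p),
    (1 - ((jacobiSym ((4 * n + 1 : ℕ) : ℤ) p : ℤ) : ℝ) / ((p : ℝ) - 1))

lemma prod_eq (n X : ℕ) : Pool.Agent.W80.EC.Pc (-((1 : ℕ) : ℤ)) ((1 ^ 2 + 4 * 1 * n : ℕ) : ℤ) X =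
    partialProd n X := by
  unfold Pool.Agent.W80.EC.Pc partialProd
  have hset : (range X).filter (fun p : ℕ => Nat.Prime p ∧ 2 < p ∧ ¬ ((p : ℤ) ∣ -((1 : ℕ) : ℤ))) =
      (range X).filter (fun p : ℕ => Nat.Prime p ∧ 2 < p) := by
    apply filter_congr
    intro p _
    constructor
    · rintro ⟨h1, h2, _⟩
      exact ⟨h1, h2⟩
    · rintro ⟨h1, h2⟩
      refine ⟨h1, h2, fun h => ?_⟩
      rw [dvd_neg, Int.natCast_dvd_natCast, Nat.dvd_one] at h
      omega
  have e1 : (1 ^ 2 + 4 * 1 * n : ℕ) = 4 * n + 1 := by ring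
  rw [hset, e1]

open Classical in
/-- **Prime plus `x(x+1)`, almost all odd integers of short intervals.** For all `U` and
`0 < ε ≤ 1/2` there are `B, N₀` such that for all `N ≥ N₀` and `√N (log N)^B ≤ H ≤ N`, all odd
integers `n` of the interval `(N, N + H]` but at most `H/(log N)^U` have the following property:
the infinite product `∏ (1 - ((4n+1)/p)/(p-1))` over the odd primes converges to some
`𝔖 ≥ 1/(8 log N)`, the number of `x ≥ 1` with `n - x(x+1)` prime equals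
`2 𝔖 (∑_x 1/log(n - x(x+1)) + O*(√n/(log n)^U))`, it is `(1 + O*(ε)) 2 𝔖 √n/log n`, and in
particular `n` is the sum of a prime and `x(x+1)` with `x ≥ 1`. -/
theorem result (U : ℕ) (ε : ℝ) (hε : 0 < ε) (hε1 : ε ≤ 1 / 2) : ∃ B N0 : ℕ, ∀ N H : ℕ, N0 ≤ N →
    Real.sqrt N * Real.log N ^ B ≤ H → H ≤ N →
    ∃ Bad : Finset ℕ, (Bad.card : ℝ) ≤ H / Real.log N ^ U ∧
      ∀ n : ℕ, N < n → n ≤ N + H → n ∉ Bad → Odd n →
        ∃ S : ℝ, 0 < S ∧ Tendsto (fun X : ℕ => partialProd n X) atTop (nhds S) ∧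
          1 / (8 * Real.log N) ≤ S ∧
          |(reps n : ℝ) - 2 * S * mainSum n| ≤ 2 * S * (Real.sqrt n / Real.log n ^ U) ∧
          |(reps n : ℝ) - 2 * S * (Real.sqrt n / Real.log n)| ≤
            ε * (2 * S * (Real.sqrt n / Real.log n)) ∧
          ∃ p x : ℕ, p.Prime ∧ 1 ≤ x ∧ n = p + x * (x + 1) := by
  obtain ⟨B, N0, h⟩ := Pool.Agent.W81.R1N.app 1 1 le_rfl U ε hε (by linarith)
  refine ⟨B, N0 + 3, fun N H hN hH1 hH2 => ?_⟩
  obtain ⟨Bad, hBad, hgood⟩ := h N H (by omega) hH1 hH2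
  refine ⟨Bad, hBad, fun n hn1 hn2 hnB hodd => ?_⟩
  obtain ⟨K, hK, hlim, hlow, hA, hB⟩ := hgood n (mem_Ioc.2 ⟨hn1, hn2⟩) hnB (by simp)
    (by
      intro hcon
      obtain ⟨r, hr⟩ := hcon
      obtain ⟨k, hk⟩ := hodd
      rcases Nat.even_or_odd r with ⟨j, hj⟩ | ⟨j, hj⟩
      · rw [hj] at hr
        have h1 : (j + j) * (j + j) = 4 * (j * j) := by ring
        rw [h1] at hr
        omega
      · rw [hj] at hr
        have h1 : (2 * j + 1) * (2 * j + 1) = 4 * (j * (j + 1)) + 1 := by ring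
        rw [h1] at hr
        have h2 : Even (j * (j + 1)) := Nat.even_mul_succ_self j
        obtain ⟨t, ht⟩ := h2
        rw [ht] at hr
        omega)
    (by
      rintro ⟨-, he⟩
      rw [Nat.even_iff] at he
      obtain ⟨k, hk⟩ := hodd
      omega)
  have hep : Pool.Agent.W80.EC.ep (-((1 : ℕ) : ℤ)) (-((1 : ℕ) : ℤ)) = 2 := by
    unfold Pool.Agent.W80.EC.ep
    rw [if_pos]
    decide
  have hGf : Pool.Agent.W80.EC.Gf (-((1 : ℕ) : ℤ)) (-((1 : ℕ) : ℤ)) = 1 := by
    unfold Pool.Agent.W80.EC.Gf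
    have : Int.gcd (-((1 : ℕ) : ℤ)) (-((1 : ℕ) : ℤ)) = 1 := by decide
    rw [this, Nat.primeFactors_one, filter_empty, prod_empty]
  have e1 : ∀ m : ℕ, 1 * m ^ 2 + 1 * m = m * (m + 1) := fun m => by ring
  have hr : Pool.Agent.W81.R1N.rr 1 1 n = reps n := by
    unfold Pool.Agent.W81.R1N.rr reps
    simp only [e1]
  have hJ : Pool.Agent.W81.R1N.JJ 1 1 n = mainSum n := by
    unfold Pool.Agent.W81.R1N.JJ mainSum
    simp only [e1]
  rw [hep, hGf, mul_one] at hlow hA hB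
  rw [hr] at hA hB
  rw [hJ] at hA
  rw [Nat.cast_one, div_one] at hB
  have hn0 : (0 : ℝ) < n := by
    have : 0 < n := by omega
    exact_mod_cast this
  have hLn : 0 < Real.log n := by
    apply Real.log_pos
    have : 1 < n := by omega
    exact_mod_cast this
  refine ⟨K, hK, ?_, ?_, hA, hB, ?_⟩
  · simp_rw [← prod_eq]
    exact hlim
  · have h1 : 1 / (8 * Real.log N) = (1 / (4 * Real.log N)) / 2 := by ring
    rw [h1]
    linarith
  · have hpos : 0 < reps n := by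
      have h1 : 0 < 2 * K * (Real.sqrt n / Real.log n) := by
        have := Real.sqrt_pos.2 hn0
        positivity
      have h2 := (abs_le.1 hB).1
      have h3 : 0 < (reps n : ℝ) := by nlinarith
      exact_mod_cast h3
    unfold reps at hpos
    rw [card_pos] at hpos
    obtain ⟨x, hx⟩ := hpos
    rw [mem_filter, mem_Icc] at hx
    exact ⟨n - x * (x + 1), x, hx.2.2, hx.1.1, by omega⟩

end Pool.Agent.Results.MP_3f6540_nt.ShortIntervalAsymptotic
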